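import Pool.Agent.EGF.StmtsS

/-!
Squad EGF, block S, row BMD: bounded measures see the density of a lower regular rectangle.
-/

set_option autoImplicit false

open Finset

namespace Pool.Agent.EGF.H66

private lemma sum_rect {X Y : Type} [DecidableEq X] [DecidableEq Y] (A : Finset X) (B : Finset Y)
    (F : Finset (X × Y)) (g : X → Y → ℝ) :
    ∑ p ∈ (A ×ˢ B) ∩ F, g p.1 p.2 = ∑ b ∈ B, ∑ a ∈ A, if (a, b) ∈ F then g a b else 0 := by
  rw [← Finset.filter_mem_eq_inter, Finset.sum_filter, Finset.sum_product_right]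

private lemma sum_rect' {X Y : Type} [DecidableEq X] [DecidableEq Y] (A : Finset X) (B : Finset Y)
    (F : Finset (X × Y)) (g : X → Y → ℝ) :
    ∑ p ∈ (A ×ˢ B) ∩ F, g p.1 p.2 = ∑ a ∈ A, ∑ b ∈ B, if (a, b) ∈ F then g a b else 0 := by
  rw [sum_rect, Finset.sum_comm]

/-- Small sets have small measure. -/
private lemma small_meas {X : Type} (A S : Finset X) (hA : A.Nonempty) (hS : S ⊆ A) (ι ρ K : ℝ)
    (hK : 0 < K) (hKρ : K * ρ ≤ ι) (hcard : (S.card : ℝ) ≤ ρ * A.card) (μ : X → ℝ)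
    (hμ : ∀ a ∈ A, 0 ≤ μ a ∧ μ a * A.card ≤ K) : ∑ a ∈ S, μ a ≤ ι := by
  have hA0 : (0 : ℝ) < A.card := Nat.cast_pos.mpr (Finset.card_pos.mpr hA)
  have h1 : ∑ a ∈ S, μ a ≤ ∑ a ∈ S, K / A.card :=
    Finset.sum_le_sum fun a ha => (le_div_iff₀ hA0).mpr (hμ a (hS ha)).2
  rw [Finset.sum_const, nsmul_eq_mul] at h1
  have h2 : (S.card : ℝ) * (K / A.card) ≤ ρ * A.card * (K / A.card) :=
    mul_le_mul_of_nonneg_right hcard (div_nonneg hK.le hA0.le)
  have h3 : ρ * A.card * (K / A.card) = K * ρ := by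
    field_simp
  linarith

theorem bmd : BmdStmt := by
  classical
  intro X Y _ _ A B F M ι ρ K μ ν hA hB hι hM hM1 hρ hK hKρ hL hμ hν hμ1 hν1
  have hA0 : (0 : ℝ) < A.card := Nat.cast_pos.mpr (Finset.card_pos.mpr hA)
  have hB0 : (0 : ℝ) < B.card := Nat.cast_pos.mpr (Finset.card_pos.mpr hB)
  set Bad : Finset Y := B.filter fun b => (∑ a ∈ A, if (a, b) ∈ F then μ a else 0) < M - 2 * ι
    with hBad
  have hBadB : Bad ⊆ B := Finset.filter_subset _ _
  have hBadlt : (Bad.card : ℝ) < ρ * B.card := by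
    by_contra hge
    push Not at hge
    have hβ : (0 : ℝ) < Bad.card := lt_of_lt_of_le (mul_pos hρ hB0) hge
    have hBne : Bad.Nonempty := Finset.card_pos.mp (Nat.cast_pos.mp hβ)
    let f : X → ℝ := fun a => ∑ b ∈ Bad, if (a, b) ∈ F then (1 : ℝ) else 0
    have hf0 : ∀ a, 0 ≤ f a := fun a => Finset.sum_nonneg fun b _ => by split_ifs <;> norm_num
    set A0 : Finset X := A.filter fun a => f a < (M - ι) * Bad.card with hA0def
    have hA0A : A0 ⊆ A := Finset.filter_subset _ _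
    have hA0lt : (A0.card : ℝ) < ρ * A.card := by
      by_contra hge'
      push Not at hge'
      have hα : (0 : ℝ) < A0.card := lt_of_lt_of_le (mul_pos hρ hA0) hge'
      have hAne : A0.Nonempty := Finset.card_pos.mp (Nat.cast_pos.mp hα)
      have h1 := hL A0 hA0A Bad hBadB hge' hge
      have h2 : (((A0 ×ˢ Bad) ∩ F).card : ℝ) = ∑ a ∈ A0, f a := by
        have h3 := sum_rect' A0 Bad F (fun _ _ => (1 : ℝ))
        rw [Finset.sum_const, nsmul_eq_mul, mul_one] at h3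
        exact h3
      have h3 : ∑ a ∈ A0, f a < ∑ a ∈ A0, (M - ι) * Bad.card :=
        Finset.sum_lt_sum_of_nonempty hAne fun a ha => (Finset.mem_filter.mp ha).2
      rw [Finset.sum_const, nsmul_eq_mul] at h3
      rw [h2] at h1
      nlinarith
    have hmA0 : ∑ a ∈ A0, μ a ≤ ι :=
      small_meas A A0 hA hA0A ι ρ K hK hKρ hA0lt.le μ hμ
    have hlow : (M - ι) * Bad.card * (1 - ι) ≤ ∑ a ∈ A, μ a * f a := by
      have h1 : ∑ a ∈ A \ A0, μ a + ∑ a ∈ A0, μ a = 1 := by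
        rw [Finset.sum_sdiff hA0A, hμ1]
      have h2 : ∑ a ∈ A \ A0, μ a * f a ≤ ∑ a ∈ A, μ a * f a :=
        Finset.sum_le_sum_of_subset_of_nonneg Finset.sdiff_subset fun a ha _ =>
          mul_nonneg (hμ a ha).1 (hf0 a)
      have h3 : ∑ a ∈ A \ A0, μ a * ((M - ι) * Bad.card) ≤ ∑ a ∈ A \ A0, μ a * f a := by
        refine Finset.sum_le_sum fun a ha => ?_
        rw [Finset.mem_sdiff] at ha
        refine mul_le_mul_of_nonneg_left ?_ (hμ a ha.1).1
        by_contra hlt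
        push Not at hlt
        exact ha.2 (Finset.mem_filter.mpr ⟨ha.1, hlt⟩)
      rw [← Finset.sum_mul] at h3
      have h4 : 0 ≤ (M - ι) * Bad.card := mul_nonneg (by linarith) hβ.le
      have h5 : (1 - ι) * ((M - ι) * Bad.card) ≤ (∑ a ∈ A \ A0, μ a) * ((M - ι) * Bad.card) :=
        mul_le_mul_of_nonneg_right (by linarith) h4
      linarith
    have hup : ∑ a ∈ A, μ a * f a < (M - 2 * ι) * Bad.card := by
      have h1 : ∑ a ∈ A, μ a * f a = ∑ b ∈ Bad, ∑ a ∈ A, if (a, b) ∈ F then μ a else 0 := by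
        rw [Finset.sum_comm]
        refine Finset.sum_congr rfl fun a _ => ?_
        rw [Finset.mul_sum]
        refine Finset.sum_congr rfl fun b _ => ?_
        rw [mul_ite, mul_one, mul_zero]
      have h2 : ∑ b ∈ Bad, (∑ a ∈ A, if (a, b) ∈ F then μ a else 0) < ∑ b ∈ Bad, (M - 2 * ι) :=
        Finset.sum_lt_sum_of_nonempty hBne fun b hb => (Finset.mem_filter.mp hb).2
      rw [Finset.sum_const, nsmul_eq_mul] at h2
      rw [h1]
      linarith
    have h6 : (M - 2 * ι) * Bad.card ≤ (M - ι) * Bad.card * (1 - ι) := by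
      have h7 : M - 2 * ι ≤ (M - ι) * (1 - ι) := by nlinarith
      nlinarith
    linarith
  have hmBad : ∑ b ∈ Bad, ν b ≤ ι :=
    small_meas B Bad hB hBadB ι ρ K hK hKρ hBadlt.le ν hν
  have hsum : ∑ p ∈ (A ×ˢ B) ∩ F, μ p.1 * ν p.2 =
      ∑ b ∈ B, ν b * ∑ a ∈ A, if (a, b) ∈ F then μ a else 0 := by
    rw [sum_rect A B F (fun a b => μ a * ν b)]
    refine Finset.sum_congr rfl fun b _ => ?_
    rw [Finset.mul_sum]
    refine Finset.sum_congr rfl fun a _ => ?_
    split_ifs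
    · ring
    · ring
  rw [hsum]
  have h1 : ∑ b ∈ B \ Bad, ν b + ∑ b ∈ Bad, ν b = 1 := by
    rw [Finset.sum_sdiff hBadB, hν1]
  have h2 : ∑ b ∈ B \ Bad, (ν b * ∑ a ∈ A, if (a, b) ∈ F then μ a else 0) ≤
      ∑ b ∈ B, ν b * ∑ a ∈ A, if (a, b) ∈ F then μ a else 0 :=
    Finset.sum_le_sum_of_subset_of_nonneg Finset.sdiff_subset fun b hb _ =>
      mul_nonneg (hν b hb).1 (Finset.sum_nonneg fun a ha => by
        split_ifs
        · exact (hμ a ha).1
        · exact le_rfl)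
  have h3 : ∑ b ∈ B \ Bad, ν b * (M - 2 * ι) ≤
      ∑ b ∈ B \ Bad, (ν b * ∑ a ∈ A, if (a, b) ∈ F then μ a else 0) := by
    refine Finset.sum_le_sum fun b hb => ?_
    rw [Finset.mem_sdiff] at hb
    refine mul_le_mul_of_nonneg_left ?_ (hν b hb.1).1
    by_contra hlt
    push Not at hlt
    exact hb.2 (Finset.mem_filter.mpr ⟨hb.1, hlt⟩)
  rw [← Finset.sum_mul] at h3
  have h4 : (1 - ι) * (M - 2 * ι) ≤ (∑ b ∈ B \ Bad, ν b) * (M - 2 * ι) :=
    mul_le_mul_of_nonneg_right (by linarith) (by linarith)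
  nlinarith

end Pool.Agent.EGF.H66
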