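import Pool.Agent.EGF.StmtsV

/-!
# Squad EGF, row ONE: one scale
-/

set_option autoImplicit false

open Finset

namespace Pool.Agent.EGF.H66

theorem spt_sub {V : Type} [DecidableEq V] {k : ℕ} (c : V → V → Fin k) (q : ℝ) (W : Finset V)
    (T : ℝ) (hq : 0 < q) (hT : 0 < T) : spt c q W T ⊆ pal c W := by
  intro g hg
  unfold spt at hg
  rw [mem_filter] at hg
  obtain ⟨-, A, hA, B, hB, hd, hTA, hTB, hp⟩ := hg
  have hA0 : (0 : ℝ) < A.card := lt_of_lt_of_le hT hTA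
  have hB0 : (0 : ℝ) < B.card := lt_of_lt_of_le hT hTB
  have h1 : (0 : ℝ) < (prs c g A B).card := lt_of_lt_of_le (by positivity) hp
  have h2 : 0 < (prs c g A B).card := by exact_mod_cast h1
  obtain ⟨p, hp⟩ := card_pos.mp h2
  unfold prs at hp
  rw [mem_filter, mem_product] at hp
  unfold pal
  rw [mem_image]
  refine ⟨p, ?_, hp.2⟩
  rw [mem_filter, mem_product]
  exact ⟨⟨hA hp.1.1, hB hp.1.2⟩, fun h => disjoint_left.mp hd hp.1.1 (h ▸ hp.1.2)⟩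

theorem one_num (q M S x y h : ℝ) (N Tf : ℕ) (hq : 0 < q) (hqM : q ≤ M) (hM1 : M ≤ 1)
    (hnum : (1 / (2 * q ^ 2) + 6) * Real.log (2 / q) + 14 ≤ 2 * S) (hxy : x ≤ y)
    (hN : Real.exp (y - h) ≤ N) (hTf : q / 2 * (N : ℝ) ≤ Tf) :
    Real.exp (x - (h + 2 * S)) * (2 / q) ^ ⌈1 / (2 * M ^ 2)⌉₊ ≤ M ^ 4 / 10 ^ 6 * Tf := by
  set n := ⌈1 / (2 * M ^ 2)⌉₊ with hn
  have hM : 0 < M := lt_of_lt_of_le hq hqM
  have hn1 : (n : ℝ) ≤ 1 / (2 * q ^ 2) + 1 := by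
    have h1 : (n : ℝ) < 1 / (2 * M ^ 2) + 1 := Nat.ceil_lt_add_one (by positivity)
    have h2 : 1 / (2 * M ^ 2) ≤ 1 / (2 * q ^ 2) :=
      one_div_le_one_div_of_le (by positivity) (by gcongr)
    linarith
  have hlog : 0 ≤ Real.log (2 / q) := Real.log_nonneg (by rw [le_div_iff₀ hq]; linarith)
  have h14 : (10 : ℝ) ^ 6 ≤ Real.exp 14 := by
    have h1 : Real.exp 14 = Real.exp 1 ^ 14 := by rw [← Real.exp_nat_mul]; norm_num
    rw [h1]
    have h2 : (2.7 : ℝ) ≤ Real.exp 1 := by have := Real.exp_one_gt_d9; linarith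
    calc (10 : ℝ) ^ 6 ≤ 2.7 ^ 14 := by norm_num
      _ ≤ Real.exp 1 ^ 14 := by gcongr
  have hp : (2 / q) ^ (n + 5) * 10 ^ 6 ≤ Real.exp (2 * S) := by
    have h1 : (2 / q) ^ (n + 5) = Real.exp (((n + 5 : ℕ) : ℝ) * Real.log (2 / q)) := by
      rw [Real.exp_nat_mul, Real.exp_log (by positivity)]
    calc (2 / q) ^ (n + 5) * 10 ^ 6
        ≤ Real.exp (((n + 5 : ℕ) : ℝ) * Real.log (2 / q)) * Real.exp 14 := by
          rw [h1]; gcongr
      _ = Real.exp (((n + 5 : ℕ) : ℝ) * Real.log (2 / q) + 14) := by rw [Real.exp_add]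
      _ ≤ Real.exp (2 * S) := by
          apply Real.exp_le_exp.mpr
          have h2 : ((n + 5 : ℕ) : ℝ) * Real.log (2 / q) ≤
              (1 / (2 * q ^ 2) + 6) * Real.log (2 / q) := by
            apply mul_le_mul_of_nonneg_right _ hlog
            push_cast; linarith
          linarith
  have hp2 : (2 / q) ^ n * (2 * 10 ^ 6) ≤ q ^ 5 * Real.exp (2 * S) := by
    have h1 : (2 / q) ^ (n + 5) * q ^ 5 = (2 / q) ^ n * 32 := by
      rw [pow_add, div_pow 2 q 5]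
      field_simp
      norm_num
    have h2 : (2 / q) ^ (n + 5) * 10 ^ 6 * q ^ 5 ≤ Real.exp (2 * S) * q ^ 5 := by gcongr
    have h3 : 0 ≤ (2 / q) ^ n := by positivity
    have h4 : (2 / q) ^ (n + 5) * 10 ^ 6 * q ^ 5 = (2 / q) ^ n * 32 * 10 ^ 6 := by
      rw [← h1]; ring
    rw [h4] at h2
    nlinarith
  have hE : Real.exp (x - (h + 2 * S)) * Real.exp (2 * S) = Real.exp (x - h) := by
    rw [← Real.exp_add]; congr 1; ring
  have hxh : Real.exp (x - h) ≤ N := le_trans (Real.exp_le_exp.mpr (by linarith)) hN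
  have hq4 : q ^ 4 ≤ M ^ 4 := by gcongr
  have hrhs : q ^ 5 / (2 * 10 ^ 6) * Real.exp (x - h) ≤ M ^ 4 / 10 ^ 6 * Tf := by
    calc q ^ 5 / (2 * 10 ^ 6) * Real.exp (x - h) ≤ q ^ 5 / (2 * 10 ^ 6) * N := by gcongr
      _ = q ^ 4 / 10 ^ 6 * (q / 2 * N) := by ring
      _ ≤ M ^ 4 / 10 ^ 6 * Tf := by gcongr
  refine le_trans ?_ hrhs
  rw [← hE]
  have h0 : 0 < Real.exp (x - (h + 2 * S)) := Real.exp_pos _
  have h5 : (2 / q) ^ n ≤ q ^ 5 / (2 * 10 ^ 6) * Real.exp (2 * S) := by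
    rw [div_mul_eq_mul_div, le_div_iff₀ (by norm_num)]
    exact hp2
  calc Real.exp (x - (h + 2 * S)) * (2 / q) ^ n
      ≤ Real.exp (x - (h + 2 * S)) * (q ^ 5 / (2 * 10 ^ 6) * Real.exp (2 * S)) := by gcongr
    _ = q ^ 5 / (2 * 10 ^ 6) * (Real.exp (x - (h + 2 * S)) * Real.exp (2 * S)) := by ring

theorem ind_sum {X Y : Type} [DecidableEq X] [DecidableEq Y] (F : Finset (X × Y))
    (A : Finset X) (B : Finset Y) :
    ∑ a ∈ A, ∑ b ∈ B, ind F a b = (((A ×ˢ B) ∩ F).card : ℝ) := by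
  unfold ind
  rw [← sum_product' A B (fun a b => if (a, b) ∈ F then (1 : ℝ) else 0)]
  rw [← filter_mem_eq_inter, card_filter]
  push_cast
  rfl

theorem one (lre : LreStmt) (ro2 : Ro2Stmt) (gsp : GspStmt) (spc : SpcStmt) : OneStmt := by
  intro V _ k c U1 Uj U A B e q κ S h M hNo hUj1 hUUj hUne hS hSh hq hqM hM1 hκ hκ8 hl1 hl2 hrec
    hpal hreg hnum hAU hBU hAB hAne hBne hlA hlB hMd hmax
  have hM : 0 < M := lt_of_lt_of_le hq hqM
  have hq1 : q ≤ 1 := le_trans hqM hM1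
  have hρ : 0 < q ^ 2 * κ / (4 * 10 ^ 4) := by positivity
  have hρ1 : q ^ 2 * κ / (4 * 10 ^ 4) ≤ 1 := by
    rw [div_le_one (by norm_num)]
    have h1 : q ^ 2 ≤ 1 := pow_le_one₀ hq.le hq1
    nlinarith
  have hinter : ∀ A' ⊆ A, ∀ B' ⊆ B, (A' ×ˢ B') ∩ prs c e A B = prs c e A' B' := by
    intro A' hA' B' hB'
    ext p
    unfold prs
    rw [mem_inter, mem_filter, mem_filter, mem_product, mem_product]
    constructor
    · rintro ⟨h1, -, h2⟩
      exact ⟨h1, h2⟩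
    · rintro ⟨h1, h2⟩
      exact ⟨h1, ⟨hA' h1.1, hB' h1.2⟩, h2⟩
  obtain ⟨A1, hA1, B1, hB1, hA1ne, hB1ne, hLA, hLB, hLrg⟩ :=
    lre V V A B (prs c e A B) M (M / 10 ^ 4) (q ^ 2 * κ / (4 * 10 ^ 4)) hAne hBne hM.le
      (by positivity) hρ hρ1 (by rw [hinter A (Subset.refl _) B (Subset.refl _)]; exact hMd)
  have hloss : 2 / (M / 10 ^ 4 * (q ^ 2 * κ / (4 * 10 ^ 4)) ^ 2) ≤ S := by
    refine le_trans ?_ hreg
    have h1 : 2 / (M / 10 ^ 4 * (q ^ 2 * κ / (4 * 10 ^ 4)) ^ 2) =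
        2 * 10 ^ 4 / (M * (q ^ 2 * κ / (4 * 10 ^ 4)) ^ 2) := by
      field_simp
    rw [h1]
    gcongr
  have hA1U : A1 ⊆ U := hA1.trans hAU
  have hB1U : B1 ⊆ U := hB1.trans hBU
  have hT : 0 < Real.exp (Real.log U1.card - h) := Real.exp_pos _
  have hspt : ((spt c q Uj (Real.exp (Real.log U1.card - h))).card : ℝ) ≤ (pal c Uj).card := by
    exact_mod_cast card_le_card (spt_sub c q Uj _ hq hT)
  have hsqrt : 0 ≤ √κ := Real.sqrt_nonneg _
  obtain ⟨g, -, hg1, hg2⟩ := ro2 V k c Uj A1 B1 q (Real.exp (Real.log U1.card - h))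
    (h / 2 - (Real.log U1.card - Real.log Uj.card)) S κ hS hκ hκ8 hrec (by linarith)
    (hA1U.trans hUUj) hA1ne (hB1U.trans hUUj) hB1ne (by linarith) (by linarith)
    (by
      have : 3 * √κ * ((spt c q Uj (Real.exp (Real.log U1.card - h))).card : ℝ) ≤
        3 * √κ * ((pal c Uj).card : ℝ) := by gcongr
      linarith)
  obtain ⟨m, X0, X1, R, hm, hX, hmA⟩ := gsp V k c g A1 q _ κ hq hq1 hT hκ hg1
  obtain ⟨m', Y0, Y1, R', hm', hY, hmB⟩ := gsp V k c g B1 q _ κ hq hq1 hT hκ hg2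
  have hN : Real.exp (Real.log U1.card - h) ≤
      ((⌈Real.exp (Real.log U1.card - h)⌉₊ : ℕ) : ℝ) := Nat.le_ceil _
  have hN0 : (0 : ℝ) < ((⌈Real.exp (Real.log U1.card - h)⌉₊ : ℕ) : ℝ) := lt_of_lt_of_le hT hN
  generalize ⌈Real.exp (Real.log U1.card - h)⌉₊ = N at *
  have hTf : q / 2 * (N : ℝ) ≤ ((⌈q / 2 * (N : ℝ)⌉₊ : ℕ) : ℝ) := Nat.le_ceil _
  have hTf1 : 1 ≤ ⌈q / 2 * (N : ℝ)⌉₊ := Nat.one_le_iff_ne_zero.mpr (by
    intro h0
    rw [Nat.ceil_eq_zero] at h0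
    have : 0 < q / 2 * (N : ℝ) := by positivity
    linarith)
  generalize ⌈q / 2 * (N : ℝ)⌉₊ = Tf at *
  have hU0 : (0 : ℝ) < U.card := by exact_mod_cast card_pos.mpr hUne
  have hUU1 : Real.log U.card ≤ Real.log U1.card := by
    apply Real.log_le_log hU0
    exact_mod_cast card_le_card (hUUj.trans hUj1)
  refine spc V k c g e U A1 B1 (prs c e A B) N Tf m m' X0 X1 Y0 Y1 R R' q M κ
    (Real.exp (Real.log U.card - (h + 2 * S))) hNo hA1U hB1U (disjoint_of_subset_left hA1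
      (disjoint_of_subset_right hB1 hAB)) hA1ne hB1ne ?_ hq hqM hM1 hκ (Real.exp_pos _) hTf1 hm hm'
    hLrg ?_ ?_ ?_ hmA hmB hX hY
  · intro x _ y _ hxy
    unfold prs at hxy
    exact (mem_filter.mp hxy).2
  · intro A' hA' B' hB' hEA hEB
    rw [ind_sum, hinter A' (hA'.trans hA1) B' (hB'.trans hB1)]
    have hE0 : 0 < Real.exp (Real.log U.card - (h + 2 * S)) := Real.exp_pos _
    have hA'0 : (0 : ℝ) < A'.card := lt_of_lt_of_le hE0 hEA
    have hB'0 : (0 : ℝ) < B'.card := lt_of_lt_of_le hE0 hEB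
    refine hmax A' (hA'.trans hA1U) B' (hB'.trans hB1U) (disjoint_of_subset_left
      (hA'.trans hA1) (disjoint_of_subset_right (hB'.trans hB1) hAB))
      (card_pos.mp (by exact_mod_cast hA'0)) (card_pos.mp (by exact_mod_cast hB'0)) ?_ ?_
    · exact (Real.le_log_iff_exp_le hA'0).mpr hEA
    · exact (Real.le_log_iff_exp_le hB'0).mpr hEB
  · exact one_num q M S (Real.log U.card) (Real.log U1.card) h N Tf hq hqM hM1 hnum hUU1 hN hTf
  · have h1 : (N : ℝ) = 2 / q * (q / 2 * N) := by field_simp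
    rw [h1]
    gcongr

end Pool.Agent.EGF.H66
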